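import Pool.Agent.Q141.ZS.Main

/-! # Realizing sets of residues with a unit -/

namespace Pool.Agent.Q141.ZS

open Finset

theorem sqrt_aux {m q : ℕ} (h1 : q * q ≤ 8 * m + 9) (h2 : 8 * m + 9 < (q + 1) * (q + 1)) :
    Nat.sqrt (8 * m + 9) = q := by
  apply le_antisymm
  · exact Nat.le_of_lt_succ (Nat.sqrt_lt.2 h2)
  · exact Nat.le_sqrt.2 h1

/-- the number of elements of the standard set -/
theorem three_le_bN {m : ℕ} (hm : 5 ≤ m) : 3 ≤ bN m := by
  have h : 7 ≤ Nat.sqrt (8 * m + 9) := by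
    rw [Nat.le_sqrt]
    omega
  unfold bN
  omega

theorem k_five : k 5 < 3 := by
  apply k_lt
  intro S hS
  have h := no_set (m := 5) [1, 2, 3, 4] (by decide) (by decide) 3 (by decide) S hS
  apply h
  intro x hx
  have h0 : x ≠ 0 := by
    rintro rfl
    exact hS {0} (by simpa using hx) ⟨0, by simp⟩ (by simp)
  have h1 : 0 < x.val := Nat.pos_of_ne_zero fun h => h0 ((ZMod.val_eq_zero x).1 h)
  have h2 : x.val < 5 := ZMod.val_lt x
  simp only [List.mem_cons, List.not_mem_nil, or_false]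
  omega

theorem six_le {m : ℕ} (hm : m ∈ E) : 6 ≤ m := by
  by_contra h
  have h5 : m = 5 := by
    have := hm.1
    omega
  subst h5
  have h1 := hm.2
  rw [b_eq] at h1
  have h2 : bN 5 = 3 := by
    unfold bN
    rw [sqrt_aux (q := 7) (by norm_num) (by norm_num)]
  rw [h2] at h1
  have := k_five
  omega

theorem k_eq {m : ℕ} (hm : m ∈ E) : k m = bN m := by
  have := hm.2
  rw [b_eq] at this
  exact_mod_cast this

/-- every member of `E` has a realizing set which contains `1` -/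
theorem exists_unit {m : ℕ} (hm : m ∈ E) :
    ∃ S : Finset (ZMod m), Realizing m S ∧ ∃ a ∈ S, Nat.Coprime a.val m := by
  have h6 := six_le hm
  have h3 := three_le_bN hm.1
  have hb := bN_spec m
  refine ⟨stSet m (bN m), ⟨stSet_free h6 h3 hb, ?_⟩, 1, ?_, ?_⟩
  · rw [stSet_card h6 hb, k_eq hm]
  · rw [stSet, Finset.mem_image]
    exact ⟨1, Finset.mem_Icc.2 ⟨le_rfl, by omega⟩, by simp [st]⟩
  · haveI : Fact (1 < m) := ⟨by omega⟩
    rw [ZMod.val_one]
    exact Nat.coprime_one_left m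

end Pool.Agent.Q141.ZS
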