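import Pool.Agent.Q141.ZS.Main

namespace Pool.Agent.Q141.ZS

open Finset

/-- the residues `1, ..., m - 1` -/
def allRes (m : ℕ) : List ℕ := (List.range m).filter fun a => 0 < a

/-- the residues which are not coprime to `m` (nonzero) -/
def nonUnits (m : ℕ) : List ℕ := (List.range m).filter fun a => 0 < a ∧ Nat.gcd a m ≠ 1

/-- one step of the search, for splitting it into several computations -/
theorem go_step {m a len s n : ℕ} {l : List ℕ} (h1 : go m l (len - 1) (upd m s a) n = false)
    (h2 : go m l (len - 1) s (n + 1) = false) : go m (a :: l) len s (n + 1) = false := by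
  simp only [go, h1, h2]
  simp

theorem check_36 : go 36 (nonUnits 36) (nonUnits 36).length 1 (bN 36) = false := by
  decide +kernel

theorem check_40 : go 40 (nonUnits 40) (nonUnits 40).length 1 (bN 40) = false := by
  decide +kernel

theorem check_44 : go 44 (nonUnits 44) (nonUnits 44).length 1 (bN 44) = false := by
  decide +kernel

theorem check_46 : go 46 (nonUnits 46) (nonUnits 46).length 1 (bN 46) = false := by
  decide +kernel

theorem check_45 : go 45 (nonUnits 45) (nonUnits 45).length 1 (bN 45) = false := by
  decide +kernel

/-- the other moduli of the range -/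
def small : List ℕ := [5, 6, 7, 8, 9, 10, 11, 13, 14, 15, 16, 17, 19, 20, 21, 22, 23, 25, 26, 27, 28, 29, 31, 32, 33, 34, 35, 37, 38, 39, 41, 43, 47]

theorem check_small : ∀ m ∈ small, go m (nonUnits m) (nonUnits m).length 1 (bN m) = false := by
  decide +kernel

theorem mem_small : ∀ m ∈ List.range 48, 5 ≤ m → m ∉ ([12, 18, 24, 30, 42] : List ℕ) →
    m ∉ ([36, 40, 44, 46, 45] : List ℕ) → m ∈ small := by
  decide

theorem check_nonUnits : ∀ m ∈ List.range 48, 5 ≤ m → m ≠ 12 → m ≠ 18 → m ≠ 24 → m ≠ 30 → m ≠ 42 →
    go m (nonUnits m) (nonUnits m).length 1 (bN m) = false := by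
  intro m hm h5 h12 h18 h24 h30 h42
  rcases eq_or_ne m 36 with rfl | h36
  · exact check_36
  rcases eq_or_ne m 40 with rfl | h40
  · exact check_40
  rcases eq_or_ne m 44 with rfl | h44
  · exact check_44
  rcases eq_or_ne m 46 with rfl | h46
  · exact check_46
  rcases eq_or_ne m 45 with rfl | h45
  · exact check_45
  exact check_small m (mem_small m hm h5 (by simp [h12, h18, h24, h30, h42])
    (by simp [h36, h40, h44, h46, h45]))

theorem check_30_1 : go 30 (List.range' 2 28) 28 (upd 30 1 1) 7 = false := by
  decide +kernel

theorem check_30_2 : go 30 (List.range' 3 27) 27 (upd 30 1 2) 7 = false := by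
  decide +kernel

theorem check_30_3 : go 30 (List.range' 4 26) 26 (upd 30 1 3) 7 = false := by
  decide +kernel

theorem check_30_4 : go 30 (List.range' 5 25) 25 (upd 30 1 4) 7 = false := by
  decide +kernel

theorem check_30_5 : go 30 (List.range' 6 24) 24 (upd 30 1 5) 7 = false := by
  decide +kernel

theorem check_30_6 : go 30 (List.range' 7 23) 23 (upd 30 1 6) 7 = false := by
  decide +kernel

theorem check_30_7 : go 30 (List.range' 8 22) 22 (upd 30 1 7) 7 = false := by
  decide +kernel

theorem check_30_8 : go 30 (List.range' 9 21) 21 (upd 30 1 8) 7 = false := by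
  decide +kernel

theorem check_30_9 : go 30 (List.range' 10 20) 20 (upd 30 1 9) 7 = false := by
  decide +kernel

theorem check_30_10 : go 30 (List.range' 11 19) 19 (upd 30 1 10) 7 = false := by
  decide +kernel

theorem check_30_11 : go 30 (List.range' 12 18) 18 (upd 30 1 11) 7 = false := by
  decide +kernel

theorem check_30_12 : go 30 (List.range' 13 17) 17 (upd 30 1 12) 7 = false := by
  decide +kernel

theorem check_30_13 : go 30 (List.range' 14 16) 16 (upd 30 1 13) 7 = false := by
  decide +kernel

theorem check_30_14 : go 30 (List.range' 15 15) 15 (upd 30 1 14) 7 = false := by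
  decide +kernel

theorem check_30_15 : go 30 (List.range' 16 14) 14 (upd 30 1 15) 7 = false := by
  decide +kernel

theorem check_30_16 : go 30 (List.range' 17 13) 13 (upd 30 1 16) 7 = false := by
  decide +kernel

theorem check_30_17 : go 30 (List.range' 18 12) 12 (upd 30 1 17) 7 = false := by
  decide +kernel

theorem check_30_18 : go 30 (List.range' 19 11) 11 (upd 30 1 18) 7 = false := by
  decide +kernel

theorem check_30_19 : go 30 (List.range' 20 10) 10 (upd 30 1 19) 7 = false := by
  decide +kernel

theorem check_30_20 : go 30 (List.range' 21 9) 9 (upd 30 1 20) 7 = false := by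
  decide +kernel

theorem check_30_21 : go 30 (List.range' 22 8) 8 (upd 30 1 21) 7 = false := by
  decide +kernel

theorem check_30_rest : go 30 (List.range' 22 8) 8 1 8 = false := by
  decide +kernel

theorem check_30 : go 30 (allRes 30) (allRes 30).length 1 (bN 30 + 1) = false := by
  have h1 : allRes 30 = List.range' 1 29 := by decide
  have h2 : (List.range' 1 29).length = 29 := by simp
  have h3 : bN 30 = 7 := by decide +kernel
  rw [h1, h2, h3]
  exact (go_step (l := List.range' 2 28) check_30_1 (go_step (l := List.range' 3 27) check_30_2 (go_step (l := List.range' 4 26) check_30_3 (go_step (l := List.range' 5 25) check_30_4 (go_step (l := List.range' 6 24) check_30_5 (go_step (l := List.range' 7 23) check_30_6 (go_step (l := List.range' 8 22) check_30_7 (go_step (l := List.range' 9 21) check_30_8 (go_step (l := List.range' 10 20) check_30_9 (go_step (l := List.range' 11 19) check_30_10 (go_step (l := List.range' 12 18) check_30_11 (go_step (l := List.range' 13 17) check_30_12 (go_step (l := List.range' 14 16) check_30_13 (go_step (l := List.range' 15 15) check_30_14 (go_step (l := List.range'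 16 14) check_30_15 (go_step (l := List.range' 17 13) check_30_16 (go_step (l := List.range' 18 12) check_30_17 (go_step (l := List.range' 19 11) check_30_18 (go_step (l := List.range' 20 10) check_30_19 (go_step (l := List.range' 21 9) check_30_20 (go_step (l := List.range' 22 8) check_30_21 check_30_rest)))))))))))))))))))))

theorem check_12_18 : ∀ m ∈ ([12, 18] : List ℕ),
    go m (allRes m) (allRes m).length 1 (bN m + 1) = false := by
  decide +kernel

theorem check_24 : go 24 (allRes 24) (allRes 24).length 1 (bN 24 + 1) = false := by
  decide +kernel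

theorem check_all : ∀ m ∈ ([12, 18, 24, 30] : List ℕ),
    go m (allRes m) (allRes m).length 1 (bN m + 1) = false := by
  intro m hm
  simp only [List.mem_cons, List.not_mem_nil, or_false] at hm
  rcases hm with rfl | rfl | rfl | rfl
  · exact check_12_18 12 (by simp)
  · exact check_12_18 18 (by simp)
  · exact check_24
  · exact check_30

end Pool.Agent.Q141.ZS
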