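import Mathlib

/-! # Sets of residues without a subset of sum zero -/

namespace Pool.Agent.Q141.ZS

open Finset

/-- No nonempty subset of `S` has sum zero modulo `m`. -/
def ZeroSumFree (m : ℕ) (S : Finset (ZMod m)) : Prop :=
  ∀ T ⊆ S, T.Nonempty → ∑ x ∈ T, x ≠ 0

/-- `k(m)`: the largest size of a zero-sum-free set of residues modulo `m`. -/
noncomputable def k (m : ℕ) : ℕ :=
  sSup {n | ∃ S : Finset (ZMod m), ZeroSumFree m S ∧ S.card = n}

/-- `S` is a realizing set for `m`: zero-sum-free with `k(m)` elements. -/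
def Realizing (m : ℕ) (S : Finset (ZMod m)) : Prop :=
  ZeroSumFree m S ∧ S.card = k m

/-- `b(m) = ⌊(-1 + √(8 m + 9)) / 2⌋`. -/
noncomputable def b (m : ℕ) : ℤ :=
  ⌊(-1 + √(8 * (m : ℝ) + 9)) / 2⌋

/-- `E` is the set of the integers `m ≥ 5` with `k(m) = b(m)`. -/
def E : Set ℕ := {m | 5 ≤ m ∧ (k m : ℤ) = b m}

end Pool.Agent.Q141.ZS
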