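import Pool.Agent.Q141.ZS.Search

namespace Pool.Agent.Q141.ZS

open Finset

/-! ### The function `b` -/

/-- `b(m)` by integer arithmetic -/
def bN (m : ℕ) : ℕ := (Nat.sqrt (8 * m + 9) - 1) / 2

theorem b_eq (m : ℕ) : b m = (bN m : ℤ) := by
  have hs0 : (0 : ℝ) ≤ 8 * (m : ℝ) + 9 := by positivity
  unfold b bN
  rw [Int.floor_eq_iff]
  set q := (Nat.sqrt (8 * m + 9) - 1) / 2 with hq
  have h1 : 1 ≤ Nat.sqrt (8 * m + 9) := by
    rw [Nat.le_sqrt]
    omega
  have h2 : 2 * q + 1 ≤ Nat.sqrt (8 * m + 9) := by omega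
  have h3 : Nat.sqrt (8 * m + 9) < 2 * q + 3 := by omega
  rw [Nat.le_sqrt] at h2
  rw [Nat.sqrt_lt] at h3
  have h2' : ((2 * q + 1 : ℕ) : ℝ) ≤ √(8 * (m : ℝ) + 9) := by
    apply Real.le_sqrt_of_sq_le
    rw [sq]
    exact_mod_cast h2
  have h3' : √(8 * (m : ℝ) + 9) < ((2 * q + 3 : ℕ) : ℝ) := by
    rw [Real.sqrt_lt' (by positivity), sq]
    exact_mod_cast h3
  push_cast at h2' h3' ⊢
  constructor <;> linarith

theorem bN_spec (m : ℕ) : bN m * (bN m + 1) ≤ 2 * m + 2 := by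
  have h1 : 1 ≤ Nat.sqrt (8 * m + 9) := by
    rw [Nat.le_sqrt]
    omega
  have h2 : 2 * bN m + 1 ≤ Nat.sqrt (8 * m + 9) := by
    unfold bN
    omega
  rw [Nat.le_sqrt] at h2
  nlinarith

/-! ### The function `k` -/

section
variable {m : ℕ} [NeZero m]

theorem bdd (m : ℕ) [NeZero m] :
    BddAbove {n | ∃ S : Finset (ZMod m), ZeroSumFree m S ∧ S.card = n} := by
  refine ⟨Fintype.card (ZMod m), ?_⟩
  rintro n ⟨S, -, rfl⟩
  exact Finset.card_le_univ S

theorem le_k (S : Finset (ZMod m)) (hS : ZeroSumFree m S) : S.card ≤ k m :=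
  le_csSup (bdd m) ⟨S, hS, rfl⟩

omit [NeZero m] in
theorem ZeroSumFree.mono {S T : Finset (ZMod m)} (hS : ZeroSumFree m S) (h : T ⊆ S) :
    ZeroSumFree m T := fun U hU => hS U (hU.trans h)

theorem k_lt (n : ℕ) (h : ∀ S : Finset (ZMod m), ZeroSumFree m S → S.card ≠ n) : k m < n := by
  have hmem : k m ∈ {n | ∃ S : Finset (ZMod m), ZeroSumFree m S ∧ S.card = n} :=
    Nat.sSup_mem ⟨0, ∅, fun T hT hne => absurd (Finset.subset_empty.1 hT) hne.ne_empty, rfl⟩ (bdd m)
  obtain ⟨S, hS, hc⟩ := hmem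
  by_contra hlt
  push Not at hlt
  rw [← hc] at hlt
  obtain ⟨T, hT, hTc⟩ := Finset.exists_subset_card_eq hlt
  exact h T (hS.mono hT) hTc

end

/-! ### The standard set -/

/-- the integers `1, -2, 3, 4, ...` -/
def st (i : ℕ) : ℤ := if i = 2 then -2 else i

/-- sums of the standard integers lie between `-2` and `m - 1` and are not zero -/
theorem st_sum (n : ℕ) (T : Finset ℕ) (hT : T ⊆ Icc 1 n) (hne : T.Nonempty) :
    -2 ≤ ∑ i ∈ T, st i ∧ (3 ≤ n → 2 * ∑ i ∈ T, st i ≤ n * (n + 1) - 4) ∧ ∑ i ∈ T, st i ≠ 0 := by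
  classical
  have hpos : ∀ i ∈ T, 1 ≤ i := fun i hi => (Finset.mem_Icc.1 (hT hi)).1
  have herase : ∑ i ∈ T.erase 2, st i = ∑ i ∈ T.erase 2, (i : ℤ) :=
    Finset.sum_congr rfl fun i hi => by
      simp [st, (Finset.mem_erase.1 hi).1]
  have hgauss : 2 * ∑ i ∈ Icc 1 n, (i : ℤ) = n * (n + 1) := by
    clear hT herase
    induction n with
    | zero => simp
    | succ n ih =>
      rw [Finset.sum_Icc_succ_top (by omega), mul_add, ih]
      push_cast
      ring
  have hle : 3 ≤ n → 2 * ∑ i ∈ T.erase 2, (i : ℤ) ≤ n * (n + 1) - 4 := by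
    intro h3
    have h2 : 2 ∈ Icc 1 n := Finset.mem_Icc.2 ⟨by omega, by omega⟩
    have hsub : T.erase 2 ⊆ (Icc 1 n).erase 2 := Finset.erase_subset_erase _ hT
    have := Finset.sum_le_sum_of_subset_of_nonneg (f := fun i : ℕ => (i : ℤ)) hsub
      (fun i _ _ => Int.natCast_nonneg i)
    have he := Finset.add_sum_erase (Icc 1 n) (fun i : ℕ => (i : ℤ)) h2
    push_cast at he this ⊢
    linarith
  have hnn : 0 ≤ ∑ i ∈ T.erase 2, (i : ℤ) := Finset.sum_nonneg fun i _ => Int.natCast_nonneg i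
  by_cases h2 : 2 ∈ T
  · have hs : ∑ i ∈ T, st i = -2 + ∑ i ∈ T.erase 2, (i : ℤ) := by
      rw [← Finset.add_sum_erase T st h2, herase]
      simp [st]
    refine ⟨by linarith, fun h3 => by linarith [hle h3], ?_⟩
    rw [hs]
    intro h0
    have hsum : ∑ i ∈ T.erase 2, (i : ℤ) = 2 := by linarith
    -- all elements are at most 2, hence equal to 1
    have hone : T.erase 2 ⊆ {1} := by
      intro i hi
      have hi1 := hpos i (Finset.mem_of_mem_erase hi)
      have hi2 := (Finset.mem_erase.1 hi).1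
      have := Finset.single_le_sum (f := fun i : ℕ => (i : ℤ)) (fun i _ => Int.natCast_nonneg i) hi
      rw [hsum] at this
      have h' : i ≤ 2 := by exact_mod_cast this
      rw [Finset.mem_singleton]
      omega
    have := Finset.sum_le_sum_of_subset_of_nonneg (f := fun i : ℕ => (i : ℤ)) hone
      (fun i _ _ => Int.natCast_nonneg i)
    rw [hsum] at this
    simp at this
  · have hs : ∑ i ∈ T, st i = ∑ i ∈ T.erase 2, (i : ℤ) := by
      rw [Finset.erase_eq_of_notMem h2] at herase ⊢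
      exact herase
    refine ⟨by linarith, fun h3 => by linarith [hle h3], ?_⟩
    rw [hs, Finset.erase_eq_of_notMem h2]
    obtain ⟨i, hi⟩ := hne
    have h1 := hpos i hi
    have := Finset.single_le_sum (f := fun i : ℕ => (i : ℤ)) (fun i _ => Int.natCast_nonneg i) hi
    have h1' : (1 : ℤ) ≤ i := by exact_mod_cast h1
    linarith

theorem st_inj {m n : ℕ} (hm : 6 ≤ m) (hn : n * (n + 1) ≤ 2 * m + 2) :
    Set.InjOn (fun i : ℕ => ((st i : ℤ) : ZMod m)) (Icc 1 n : Finset ℕ) := by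
  have hnm : n + 3 ≤ m := by
    by_contra h
    push Not at h
    have : m - 2 ≤ n := by omega
    have h1 : (m - 2) * (m - 2 + 1) ≤ n * (n + 1) := Nat.mul_le_mul this (by omega)
    obtain ⟨c, rfl⟩ : ∃ c, m = c + 6 := ⟨m - 6, by omega⟩
    have e : c + 6 - 2 = c + 4 := by omega
    rw [e] at h1
    nlinarith
  intro i hi j hj hij
  rw [Finset.coe_Icc, Set.mem_Icc] at hi hj
  have hd : (m : ℤ) ∣ st j - st i := by
    rw [← ZMod.intCast_zmod_eq_zero_iff_dvd]
    push_cast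
    rw [sub_eq_zero]
    exact hij.symm
  have hb : ∀ i : ℕ, 1 ≤ i → i ≤ n → -2 ≤ st i ∧ st i ≤ n := by
    intro i h1 h2
    unfold st
    split_ifs
    · constructor <;> omega
    · constructor <;> omega
  have hbi := hb i hi.1 hi.2
  have hbj := hb j hj.1 hj.2
  have h0 : st j - st i = 0 := by
    apply Int.eq_zero_of_abs_lt_dvd hd
    rw [abs_lt]
    constructor <;> omega
  have h0' : st j = st i := by linarith
  unfold st at h0'
  split_ifs at h0' <;> omega

/-- the standard set modulo `m` -/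
def stSet (m : ℕ) (n : ℕ) : Finset (ZMod m) := (Icc 1 n).image fun i : ℕ => ((st i : ℤ) : ZMod m)

theorem stSet_card {m n : ℕ} (hm : 6 ≤ m) (hn : n * (n + 1) ≤ 2 * m + 2) :
    (stSet m n).card = n := by
  rw [stSet, Finset.card_image_of_injOn (st_inj hm hn), Nat.card_Icc]
  omega

theorem stSet_free {m n : ℕ} (hm : 6 ≤ m) (h3 : 3 ≤ n) (hn : n * (n + 1) ≤ 2 * m + 2) :
    ZeroSumFree m (stSet m n) := by
  classical
  intro T hT hne hsum
  set T' := (Icc 1 n).filter fun i : ℕ => ((st i : ℤ) : ZMod m) ∈ T with hT'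
  have himg : T'.image (fun i : ℕ => ((st i : ℤ) : ZMod m)) = T := by
    ext x
    simp only [Finset.mem_image, hT', Finset.mem_filter]
    constructor
    · rintro ⟨i, ⟨-, hi⟩, rfl⟩
      exact hi
    · intro hx
      obtain ⟨i, hi, rfl⟩ := Finset.mem_image.1 (hT hx)
      exact ⟨i, ⟨hi, hx⟩, rfl⟩
  have hsub : T' ⊆ Icc 1 n := Finset.filter_subset _ _
  have hne' : T'.Nonempty := by
    rw [← himg] at hne
    exact Finset.image_nonempty.1 hne
  have hs : ∑ x ∈ T, x = ((∑ i ∈ T', st i : ℤ) : ZMod m) := by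
    rw [← himg, Finset.sum_image]
    · push_cast
      rfl
    · exact (st_inj hm hn).mono (by exact_mod_cast hsub)
  rw [hs, ZMod.intCast_zmod_eq_zero_iff_dvd] at hsum
  obtain ⟨h1, h2, h3'⟩ := st_sum n T' hsub hne'
  have h2' := h2 h3
  apply h3'
  have hn' : (n : ℤ) * (n + 1) ≤ 2 * m + 2 := by exact_mod_cast hn
  apply Int.eq_zero_of_abs_lt_dvd hsum
  rw [abs_lt]
  constructor
  · have : (6 : ℤ) ≤ m := by exact_mod_cast hm
    linarith
  · linarith

end Pool.Agent.Q141.ZS
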