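import Pool.Agent.Q141.ZS.Defs

namespace Pool.Agent.Q141.ZS

open Finset

/-- the mask of the subset sums after adding the residue `a` -/
def upd (m s a : ℕ) : ℕ := (s ||| (s <<< a) ||| (s >>> (m - a))) &&& (2 ^ m - 1)

/-- depth first search -/
def go (m : ℕ) : List ℕ → ℕ → ℕ → ℕ → Bool
  | _, _, _, 0 => true
  | [], _, _, _ + 1 => false
  | a :: l, len, s, n + 1 =>
    if len < n + 1 then false else
      (if s.testBit (m - a) then false else go m l (len - 1) (upd m s a) n) ||
        go m l (len - 1) s (n + 1)

/-- the residues represented by a mask -/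
def rep (m s : ℕ) : Set (ZMod m) := {x | s.testBit x.val = true}

/-- the residues of `T` can be added one after the other -/
def Ok (m : ℕ) : Set (ZMod m) → List ℕ → Prop
  | _, [] => True
  | A, a :: T => (-(a : ZMod m)) ∉ A ∧ Ok m (A ∪ {x | x - a ∈ A}) T

theorem Ok.mono {m : ℕ} {A B : Set (ZMod m)} (h : A ⊆ B) : ∀ {T : List ℕ}, Ok m B T → Ok m A T
  | [], _ => trivial
  | _ :: _, hT => ⟨fun hx => hT.1 (h hx), Ok.mono (by
      rintro x (hx | hx)
      · exact Or.inl (h hx)
      · exact Or.inr (h hx)) hT.2⟩

theorem upd_lt (m s a : ℕ) : upd m s a < 2 ^ m := by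
  have h : upd m s a ≤ 2 ^ m - 1 := Nat.and_le_right
  have := Nat.two_pow_pos m
  omega

theorem rep_upd {m s a : ℕ} [NeZero m] (hs : s < 2 ^ m) (ham : a < m) :
    rep m (upd m s a) ⊆ rep m s ∪ {x | x - (a : ZMod m) ∈ rep m s} := by
  intro x hx
  have hxm : x.val < m := ZMod.val_lt x
  simp only [rep, Set.mem_ofPred_eq, upd, Nat.testBit_and, Nat.testBit_or, Bool.and_eq_true,
    Bool.or_eq_true, Nat.testBit_shiftLeft, Nat.testBit_shiftRight, decide_eq_true_eq] at hx
  have hav : (a : ZMod m).val = a := ZMod.val_cast_of_lt ham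
  rcases hx.1 with (h | h) | h
  · exact Or.inl h
  · right
    show s.testBit (x - (a : ZMod m)).val = true
    have : (x - (a : ZMod m)).val = x.val - a := by
      rw [ZMod.val_sub (by rw [hav]; exact h.1), hav]
    rw [this]
    exact h.2
  · by_cases hxa : a ≤ x.val
    · exfalso
      have : s.testBit (m - a + x.val) = false :=
        Nat.testBit_lt_two_pow (lt_of_lt_of_le hs (Nat.pow_le_pow_right (by norm_num) (by omega)))
      rw [this] at h
      exact absurd h (by simp)
    · right
      show s.testBit (x - (a : ZMod m)).val = true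
      have : (x - (a : ZMod m)).val = m - a + x.val := by
        have h1 : x - (a : ZMod m) = ((m - a + x.val : ℕ) : ZMod m) := by
          push_cast [Nat.cast_sub ham.le]
          rw [ZMod.natCast_self, ZMod.natCast_zmod_val]
          ring
        rw [h1, ZMod.val_cast_of_lt (by omega)]
      rw [this]
      exact h

theorem go_false {m : ℕ} [NeZero m] : ∀ (l : List ℕ) (len s n : ℕ), len = l.length → s < 2 ^ m →
    (∀ a ∈ l, 0 < a ∧ a < m) → go m l len s n = false →
    ∀ T : List ℕ, T.Sublist l → T.length = n → ¬ Ok m (rep m s) T := by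
  intro l
  induction l with
  | nil =>
    intro len s n hl hs ha hg T hT hn hok
    cases n with
    | zero => simp [go] at hg
    | succ n =>
      have := List.sublist_nil.1 hT
      subst this
      simp at hn
  | cons a l ih =>
    intro len s n hl hs ha hg T hT hn hok
    cases n with
    | zero => simp [go] at hg
    | succ n =>
      have ha0 := ha a (by simp)
      by_cases hlen : len < n + 1
      · have := hT.length_le
        rw [hl] at hlen
        omega
      · simp only [go, if_neg hlen, Bool.or_eq_false_iff] at hg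
        have hl' : len - 1 = l.length := by simp [hl]
        rcases List.sublist_cons_iff.1 hT with hT' | ⟨T', rfl, hT'⟩
        · exact ih (len - 1) s (n + 1) hl' hs (fun x hx => ha x (by simp [hx])) hg.2 T hT' hn hok
        · have hneg : (-(a : ZMod m)).val = m - a := by
            have h1 : (-(a : ZMod m)) = ((m - a : ℕ) : ZMod m) := by
              rw [Nat.cast_sub ha0.2.le, ZMod.natCast_self, zero_sub]
            rw [h1, ZMod.val_cast_of_lt (by omega)]
          have hbit : ¬ s.testBit (m - a) = true := by
            intro hb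
            apply hok.1
            show s.testBit (-(a : ZMod m)).val = true
            rw [hneg]
            exact hb
          rw [if_neg hbit] at hg
          refine ih (len - 1) (upd m s a) n hl' (upd_lt _ _ _)
            (fun x hx => ha x (by simp [hx])) hg.1 T' hT' (by simpa using hn) ?_
          exact Ok.mono (rep_upd hs ha0.2) hok.2

theorem ok_of_zeroSumFree {m : ℕ} (S : Finset (ZMod m)) (hS : ZeroSumFree m S) :
    ∀ (T : List ℕ) (C : Finset (ZMod m)) (A : Set (ZMod m)), C ⊆ S →
      (∀ a ∈ T, (a : ZMod m) ∈ S ∧ (a : ZMod m) ∉ C) → (T.map (fun a : ℕ => (a : ZMod m))).Nodup →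
      (∀ x ∈ A, ∃ U ⊆ C, ∑ y ∈ U, y = x) → Ok m A T := by
  intro T
  induction T with
  | nil => intro C A _ _ _ _; trivial
  | cons a T ih =>
    intro C A hC hT hnd hA
    have haS := hT a (by simp)
    refine ⟨?_, ?_⟩
    · intro hx
      obtain ⟨U, hU, hsum⟩ := hA _ hx
      have haU : (a : ZMod m) ∉ U := fun h => haS.2 (hU h)
      apply hS (insert (a : ZMod m) U)
      · intro y hy
        rcases Finset.mem_insert.1 hy with rfl | hy
        · exact haS.1
        · exact hC (hU hy)
      · exact ⟨_, Finset.mem_insert_self _ _⟩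
      · rw [Finset.sum_insert haU, hsum]
        ring
    · simp only [List.map_cons, List.nodup_cons] at hnd
      apply ih (insert (a : ZMod m) C)
      · intro y hy
        rcases Finset.mem_insert.1 hy with rfl | hy
        · exact haS.1
        · exact hC hy
      · intro c hc
        refine ⟨(hT c (by simp [hc])).1, ?_⟩
        rw [Finset.mem_insert, not_or]
        refine ⟨?_, (hT c (by simp [hc])).2⟩
        intro hca
        exact hnd.1 (List.mem_map.2 ⟨c, hc, hca⟩)
      · exact hnd.2
      · rintro x (hx | hx)
        · obtain ⟨U, hU, hsum⟩ := hA _ hx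
          exact ⟨U, hU.trans (Finset.subset_insert _ _), hsum⟩
        · obtain ⟨U, hU, hsum⟩ := hA _ hx
          have haU : (a : ZMod m) ∉ U := fun h => haS.2 (hU h)
          refine ⟨insert (a : ZMod m) U, Finset.insert_subset_insert _ hU, ?_⟩
          rw [Finset.sum_insert haU, hsum]
          ring

/-- The search proves that there is no zero-sum-free set. -/
theorem no_set {m : ℕ} [NeZero m] (l : List ℕ) (hl : ∀ a ∈ l, 0 < a ∧ a < m) (hnd : l.Nodup)
    (n : ℕ) (hg : go m l l.length 1 n = false) (S : Finset (ZMod m)) (hS : ZeroSumFree m S)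
    (hSl : ∀ x ∈ S, x.val ∈ l) : S.card ≠ n := by
  classical
  intro hcard
  set T : List ℕ := l.filter (fun a : ℕ => decide ((a : ZMod m) ∈ S)) with hT
  have hTsub : T.Sublist l := List.filter_sublist
  have hTnd : T.Nodup := by
    rw [hT]
    exact List.Nodup.filter _ hnd
  have hmem : ∀ a ∈ T, (a : ZMod m) ∈ S := by
    intro a ha
    rw [hT, List.mem_filter] at ha
    simpa using ha.2
  have hTl : ∀ a ∈ T, a < m := fun a ha => (hl a (hTsub.subset ha)).2
  have hmapnd : (T.map (fun a : ℕ => (a : ZMod m))).Nodup := by
    apply hTnd.map_on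
    intro x hx y hy hxy
    have := congrArg ZMod.val hxy
    rwa [ZMod.val_cast_of_lt (hTl x hx), ZMod.val_cast_of_lt (hTl y hy)] at this
  have hlen : T.length = n := by
    have h1 : (T.map (fun a : ℕ => (a : ZMod m))).toFinset = S := by
      ext x
      simp only [List.mem_toFinset, List.mem_map]
      constructor
      · rintro ⟨a, ha, rfl⟩
        exact hmem a ha
      · intro hx
        refine ⟨x.val, ?_, ZMod.natCast_zmod_val x⟩
        rw [hT, List.mem_filter]
        exact ⟨hSl x hx, by simpa [ZMod.natCast_zmod_val] using hx⟩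
    rw [← hcard, ← h1, List.toFinset_card_of_nodup hmapnd, List.length_map]
  have hm : 0 < m := Nat.pos_of_ne_zero (NeZero.ne m)
  refine go_false l l.length 1 n rfl ?_ hl hg T hTsub hlen ?_
  · exact Nat.one_lt_two_pow hm.ne'
  · apply ok_of_zeroSumFree S hS T ∅ (rep m 1) (Finset.empty_subset _)
      (fun a ha => ⟨hmem a ha, Finset.notMem_empty _⟩) hmapnd
    intro x hx
    refine ⟨∅, subset_rfl, ?_⟩
    have hx' : (1 : ℕ).testBit x.val = true := hx
    rw [Nat.testBit_one_eq_true_iff_self_eq_zero] at hx'
    rw [Finset.sum_empty]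
    exact ((ZMod.val_eq_zero x).1 hx').symm

end Pool.Agent.Q141.ZS
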